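import Mathlib

open Finset

namespace Pool.Agent.R415.PK

/-- The data of the complement graph, written with `y v = (degree of v) - 3`. -/
structure Dat {V : Type*} [Fintype V] [DecidableEq V] (H : SimpleGraph V)
    [DecidableRel H.Adj] (y : V → ℤ) (h : ℕ) : Prop where
  card : Fintype.card V = 20
  deg : ∀ w, ((H.neighborFinset w).card : ℤ) = y w + 3
  nb : ∀ w, ∑ v ∈ H.neighborFinset w, y v = 2 * h - y w
  s1 : ∑ v, y v = 2 * h
  s2 : ∑ v, y v * (y v + 1) = 34 * h
  lo : ∀ v, -2 ≤ y v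
  hi : ∀ v, y v ≤ 15
  hpos : 1 ≤ h

variable {V : Type*} [Fintype V] [DecidableEq V] {H : SimpleGraph V} [DecidableRel H.Adj]
  {y : V → ℤ} {h : ℕ}

theorem mul_succ_nonneg (a : ℤ) : 0 ≤ a * (a + 1) := by
  rcases le_or_gt 0 a with h | h
  · positivity
  · nlinarith

theorem sum_cls (s : Finset V) (f : ℤ → ℤ) (t : Finset ℤ) (hab : ∀ v ∈ s, y v ∈ t) :
    ∑ v ∈ s, f (y v) = ∑ l ∈ t, ((s.filter (fun v => y v = l)).card : ℤ) * f l := by
  rw [← Finset.sum_fiberwise_of_maps_to hab]
  refine Finset.sum_congr rfl fun l _ => ?_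
  rw [Finset.sum_congr rfl (g := fun _ => f l)]
  · simp
  · intro v hv
    rw [(Finset.mem_filter.mp hv).2]

theorem card_cls (s : Finset V) (t : Finset ℤ) (hab : ∀ v ∈ s, y v ∈ t) :
    (s.card : ℤ) = ∑ l ∈ t, ((s.filter (fun v => y v = l)).card : ℤ) := by
  have := sum_cls (y := y) s (fun _ => 1) t hab
  simpa using this

namespace Dat

variable (D : Dat H y h)
include D

/-- three distinct vertices give a lower bound for `s2` -/
theorem two_le {p q : V} (hpq : p ≠ q) :
    y p * (y p + 1) + y q * (y q + 1) ≤ 34 * h := by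
  rw [← D.s2, ← Finset.sum_pair (f := fun v => y v * (y v + 1)) hpq]
  exact Finset.sum_le_sum_of_subset_of_nonneg (Finset.subset_univ _)
    (fun _ _ _ => mul_succ_nonneg _)

theorem three_le {p q r : V} (hpq : p ≠ q) (hpr : p ≠ r) (hqr : q ≠ r) :
    y p * (y p + 1) + y q * (y q + 1) + y r * (y r + 1) ≤ 34 * h := by
  have e : y p * (y p + 1) + y q * (y q + 1) + y r * (y r + 1)
      = ∑ v ∈ ({p, q, r} : Finset V), y v * (y v + 1) := by
    rw [Finset.sum_insert (by simp [hpq, hpr]), Finset.sum_pair hqr]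
    ring
  rw [e, ← D.s2]
  exact Finset.sum_le_sum_of_subset_of_nonneg (Finset.subset_univ _)
    (fun _ _ _ => mul_succ_nonneg _)

theorem big_unique {p q : V} (hp : 2 * (h : ℤ) + 2 ≤ y p) (hq : 2 * (h : ℤ) + 2 ≤ y q) :
    p = q := by
  by_contra hpq
  have h1 := D.two_le hpq
  have h0 : (1 : ℤ) ≤ h := by exact_mod_cast D.hpos
  nlinarith [mul_self_nonneg ((h : ℤ) - 1)]

/-- the neighbour of a leaf -/
theorem leaf {l : V} (hl : y l = -2) : ∃ q, H.neighborFinset l = {q} ∧ y q = 2 * h + 2 := by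
  have h1 := D.deg l
  have h2 : (H.neighborFinset l).card = 1 := by omega
  obtain ⟨q, hq⟩ := Finset.card_eq_one.mp h2
  refine ⟨q, hq, ?_⟩
  have h3 := D.nb l
  rw [hq, Finset.sum_singleton] at h3
  omega

/-- the neighbours of a vertex of degree two -/
theorem two {l : V} (hl : y l = -1) :
    ∃ u v, u ≠ v ∧ H.neighborFinset l = {u, v} ∧ y u + y v = 2 * h + 1 := by
  have h1 := D.deg l
  have h2 : (H.neighborFinset l).card = 2 := by omega
  obtain ⟨u, v, huv, hq⟩ := Finset.card_eq_two.mp h2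
  refine ⟨u, v, huv, hq, ?_⟩
  have h3 := D.nb l
  rw [hq, Finset.sum_pair huv] at h3
  omega

theorem nb_erase {v p : V} (hp : H.Adj v p) :
    ∑ u ∈ (H.neighborFinset v).erase p, y u = 2 * h - y v - y p := by
  have h1 := Finset.add_sum_erase (H.neighborFinset v) y ((H.mem_neighborFinset v p).mpr hp)
  have h2 := D.nb v
  omega

theorem card_erase {v p : V} (hp : H.Adj v p) :
    ((((H.neighborFinset v).erase p).card : ℕ) : ℤ) = y v + 2 := by
  have h1 := Finset.card_erase_add_one ((H.mem_neighborFinset v p).mpr hp)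
  have h2 := D.deg v
  omega

end Dat

end Pool.Agent.R415.PK
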