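import Pool.Agent.R415.PK.Basic

open Finset

namespace Pool.Agent.R415.PK

variable {V : Type*} [Fintype V] [DecidableEq V] {H : SimpleGraph V} [DecidableRel H.Adj]
  {y : V → ℤ} {h : ℕ}

theorem sumIcc1 (f : ℤ → ℤ) : ∑ l ∈ Finset.Icc (-2 : ℤ) (2 * ((1 : ℕ) : ℤ) + 2), f l
    = f (-2) + f (-1) + f 0 + f 1 + f 2 + f 3 + f 4 := by
  have hI : Finset.Icc (-2 : ℤ) (2 * ((1 : ℕ) : ℤ) + 2) = {-2, -1, 0, 1, 2, 3, 4} := by decide
  rw [hI]
  repeat rw [Finset.sum_insert (by decide)]
  rw [Finset.sum_singleton]
  ring

theorem sumIcc2 (f : ℤ → ℤ) : ∑ l ∈ Finset.Icc (-2 : ℤ) (2 * ((2 : ℕ) : ℤ) + 2), f l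
    = f (-2) + f (-1) + f 0 + f 1 + f 2 + f 3 + f 4 + f 5 + f 6 := by
  have hI : Finset.Icc (-2 : ℤ) (2 * ((2 : ℕ) : ℤ) + 2) = {-2, -1, 0, 1, 2, 3, 4, 5, 6} := by
    decide
  rw [hI]
  repeat rw [Finset.sum_insert (by decide)]
  rw [Finset.sum_singleton]
  ring

theorem aux1 (L t n0 n1 n2 n3 Lp tp z s1 s2 s3 tq : ℕ) (E1 : n1 + 3 * n2 + 6 * n3 + L = 7)
    (E3 : n1 + 2 * n2 + 3 * n3 + 2 = t + 2 * L) (_E0 : n0 + n1 + n2 + n3 + t + L = 19)
    (P0 : Lp + tp + z + s1 + s2 + s3 = 7) (P1 : s1 + 2 * s2 + 3 * s3 + 2 = 2 * Lp + tp)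
    (hL : Lp ≤ L) (h1 : s1 ≤ n1) (h2 : s2 ≤ n2) (h3 : s3 ≤ n3)
    (hT : tp + tq = t) (k0 : 2 * z ≤ tq) (k1 : 3 * s1 ≤ tq) (k2 : 4 * s2 ≤ tq) (k3 : 5 * s3 ≤ tq)
    (x0 : 0 < z → 0 < n3) (x1 : 0 < s1 → 0 < n2) (x2 : 0 < s2 → 0 < n1) : False := by
  have a3 : n3 ≤ 1 := by omega
  have a2 : n2 ≤ 2 := by omega
  have aL : L ≤ 7 := by omega
  interval_cases n3 <;> interval_cases n2 <;> interval_cases L <;> omega

theorem aux2 (L t n1 n2 n3 n4 Lp tp s1 s2 s3 s4 tq : ℕ)
    (E1 : n1 + 3 * n2 + 6 * n3 + 10 * n4 + L = 13)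
    (E3 : n1 + 2 * n2 + 3 * n3 + 4 * n4 + 2 = t + 2 * L)
    (P0 : Lp + tp + s1 + s2 + s3 + s4 = 9) (P1 : s1 + 2 * s2 + 3 * s3 + 4 * s4 + 2 = 2 * Lp + tp)
    (hL : Lp ≤ L) (h1 : s1 ≤ n1) (h2 : s2 ≤ n2) (h3 : s3 ≤ n3) (h4 : s4 ≤ n4)
    (hT : tp + tq = t) (k3 : 5 * s3 ≤ tq) (k4 : 6 * s4 ≤ tq)
    (x1 : 0 < s1 → 0 < n4) (x2 : 0 < s2 → 0 < n3) (x3 : 0 < s3 → 0 < n2) :
    False := by
  have a4 : n4 ≤ 1 := by omega
  rcases Nat.eq_zero_or_pos n4 with b4 | b4
  · have c1 : s1 = 0 := by by_contra hc; have := x1 (by omega); omega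
    have c4 : s4 = 0 := by omega
    subst b4 c1 c4
    clear x1 k4 h4 a4
    rcases Nat.eq_zero_or_pos n3 with b3 | b3
    · have c2 : s2 = 0 := by by_contra hc; have := x2 (by omega); omega
      omega
    · clear x2
      rcases Nat.eq_zero_or_pos s3 with b5 | b5
      · clear x3; omega
      · have b6 := x3 b5
        clear x3
        omega
  · have b4' : n4 = 1 := by omega
    subst b4'
    have b3 : n3 = 0 := by omega
    have c2 : s2 = 0 := by by_contra hc; have := x2 (by omega); omega
    subst b3 c2
    have c3 : s3 = 0 := by omega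
    subst c3
    clear x1 x2 x3
    rcases Nat.eq_zero_or_pos s4 with b5 | b5
    · omega
    · omega

namespace Dat

variable (D : Dat H y h)
include D

/-- around a vertex `p` with `2h+2 ≤ y p` -/
theorem big_nb {p v : V} (hp : 2 * (h : ℤ) + 2 ≤ y p) (hv : H.Adj v p) (hv2 : y v ≠ -2) :
    y p = 2 * h + 2 ∧ ∀ u ∈ (H.neighborFinset v).erase p, y u = -1 := by
  have hge : ∀ u ∈ (H.neighborFinset v).erase p, 0 ≤ y u + 1 := by
    intro u hu
    by_contra hcon
    have h2 : y u = -2 := by have := D.lo u; omega
    obtain ⟨q, hq, hyq⟩ := D.leaf h2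
    have h3 : v ∈ H.neighborFinset u := by
      rw [SimpleGraph.mem_neighborFinset]
      exact ((H.mem_neighborFinset v u).mp (Finset.mem_of_mem_erase hu)).symm
    rw [hq, Finset.mem_singleton] at h3
    subst h3
    have h4 := D.big_unique (p := v) (q := p) (by omega) hp
    subst h4
    exact H.irrefl hv
  have h1 := D.nb_erase hv
  have h2 := D.card_erase hv
  have h3 : 0 ≤ ∑ u ∈ (H.neighborFinset v).erase p, (y u + 1) := Finset.sum_nonneg hge
  have h4 : ∑ u ∈ (H.neighborFinset v).erase p, (y u + 1)
      = ∑ u ∈ (H.neighborFinset v).erase p, y u + (((H.neighborFinset v).erase p).card : ℤ) := by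
    rw [Finset.sum_add_distrib]; simp
  have h5 : y p = 2 * h + 2 := by omega
  refine ⟨h5, fun u hu => ?_⟩
  have h6 : ∑ u ∈ (H.neighborFinset v).erase p, (y u + 1) = 0 := by omega
  have := (Finset.sum_eq_zero_iff_of_nonneg hge).mp h6 u hu
  omega

/-- the other neighbour of a vertex of degree two -/
theorem nbT {u v : V} (hu : y u = -1) (huv : H.Adj u v) :
    ∃ v', v' ≠ v ∧ H.neighborFinset u = {v, v'} ∧ y v + y v' = 2 * h + 1 := by
  obtain ⟨a, b, hab, hN, hs⟩ := D.two hu
  have h1 : v ∈ H.neighborFinset u := (H.mem_neighborFinset u v).mpr huv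
  rw [hN, Finset.mem_insert, Finset.mem_singleton] at h1
  rcases h1 with rfl | rfl
  · exact ⟨b, hab.symm, hN, hs⟩
  · exact ⟨a, hab, by rw [hN, Finset.pair_comm], by omega⟩

theorem no_big (p : V) : y p ≤ 2 * h + 1 := by
  by_contra hp'
  have hp : 2 * (h : ℤ) + 2 ≤ y p := by omega
  have h0 : 1 ≤ h := D.hpos
  have hpn := D.nb p
  have hpd := D.deg p
  obtain ⟨v0, hv0, hv02⟩ : ∃ v ∈ H.neighborFinset p, y v ≠ -2 := by
    by_contra hcon
    push Not at hcon
    rw [Finset.sum_congr rfl hcon] at hpn
    simp only [Finset.sum_const, nsmul_eq_mul] at hpn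
    rw [hpd] at hpn
    omega
  have hadj : ∀ {v : V}, v ∈ H.neighborFinset p → H.Adj v p := fun {v} hv =>
    ((H.mem_neighborFinset p v).mp hv).symm
  have hyp : y p = 2 * h + 2 := (D.big_nb hp (hadj hv0) hv02).1
  have hle : ∀ v, v ≠ p → y v ≤ 2 * h + 1 := by
    intro v hv
    by_contra hcon
    exact hv (D.big_unique (by omega) hp)
  have hne : ∀ {v : V}, v ∈ H.neighborFinset p → v ≠ p := by
    intro v hv hvp
    rw [hvp] at hv
    exact H.irrefl ((H.mem_neighborFinset p p).mp hv)
  -- structure around nonnegative neighbours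
  have key : ∀ v ∈ H.neighborFinset p, 0 ≤ y v → ∀ u ∈ (H.neighborFinset v).erase p,
      y u = -1 ∧ u ∉ H.neighborFinset p ∧
        ∃ v', v' ≠ v ∧ H.neighborFinset u = {v, v'} ∧ y v + y v' = 2 * h + 1 := by
    intro v hv hv0 u hu
    have h1 := (D.big_nb hp (hadj hv) (by omega)).2 u hu
    have h2 : H.Adj u v := ((H.mem_neighborFinset v u).mp (Finset.mem_of_mem_erase hu)).symm
    obtain ⟨v', hv', hN, hs⟩ := D.nbT h1 h2
    refine ⟨h1, ?_, v', hv', hN, hs⟩
    intro hcon
    have h3 : p ∈ H.neighborFinset u := (H.mem_neighborFinset u p).mpr (hadj hcon)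
    rw [hN, Finset.mem_insert, Finset.mem_singleton] at h3
    rcases h3 with h3 | h3
    · exact hne hv h3.symm
    · rw [← h3] at hs; omega
  have keyex : ∀ v ∈ H.neighborFinset p, 0 ≤ y v → ∃ v', v' ≠ v ∧ y v + y v' = 2 * h + 1 := by
    intro v hv hv0
    have h1 := D.card_erase (hadj hv)
    have h2 : 0 < ((H.neighborFinset v).erase p).card := by omega
    obtain ⟨u, hu⟩ := Finset.card_pos.mp h2
    obtain ⟨_, _, v', hv', _, hs⟩ := key v hv hv0 u hu
    exact ⟨v', hv', hs⟩
  -- the count
  have keycard : ∀ l : ℤ, 0 ≤ l →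
      (l + 2) * (((H.neighborFinset p).filter (fun v => y v = l)).card : ℤ)
        ≤ (((univ.filter (fun v => y v = -1)).filter
            (fun v => v ∉ H.neighborFinset p)).card : ℤ) := by
    intro l hl
    have h1 : (((H.neighborFinset p).filter (fun v => y v = l)).biUnion
        (fun v => (H.neighborFinset v).erase p)) ⊆ (univ.filter (fun v => y v = -1)).filter
            (fun v => v ∉ H.neighborFinset p) := by
      intro u hu
      rw [Finset.mem_biUnion] at hu
      obtain ⟨v, hv, hu⟩ := hu
      rw [Finset.mem_filter] at hv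
      obtain ⟨k1, k2, _⟩ := key v hv.1 (by omega) u hu
      simp only [Finset.mem_filter, Finset.mem_univ, true_and]
      exact ⟨k1, k2⟩
    have h2 := Finset.card_le_card h1
    rw [Finset.card_biUnion] at h2
    · have h3 : ∑ v ∈ (H.neighborFinset p).filter (fun v => y v = l),
          (((H.neighborFinset v).erase p).card : ℤ)
          = (l + 2) * (((H.neighborFinset p).filter (fun v => y v = l)).card : ℤ) := by
        rw [Finset.sum_congr rfl (g := fun _ => l + 2)]
        · simp [mul_comm]
        · intro v hv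
          rw [Finset.mem_filter] at hv
          have := D.card_erase (hadj hv.1)
          rw [hv.2] at this
          exact this
      rw [← h3]
      exact_mod_cast h2
    · intro v hv v' hv' hvv'
      rw [Function.onFun, Finset.disjoint_left]
      intro u hu hu'
      have hv1 := Finset.mem_filter.mp (Finset.mem_coe.mp hv)
      have hv2 := Finset.mem_filter.mp (Finset.mem_coe.mp hv')
      obtain ⟨_, _, a, _, hN, hs⟩ := key v hv1.1 (by omega) u hu
      have h4 : v' ∈ H.neighborFinset u := by
        rw [SimpleGraph.mem_neighborFinset]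
        exact ((H.mem_neighborFinset v' u).mp (Finset.mem_of_mem_erase hu')).symm
      rw [hN, Finset.mem_insert, Finset.mem_singleton] at h4
      rcases h4 with h4 | h4
      · exact hvv' h4.symm
      · rw [← h4, hv1.2, hv2.2] at hs; omega
  -- case split on h
  have hh : h ≤ 2 ∨ 3 ≤ h := by omega
  rcases hh with hh | hh
  · have hNp1 : ∀ l : ℤ, ((H.neighborFinset p).filter (fun v => y v = l)).card ≤
        (univ.filter (fun v => y v = l)).card := fun l =>
      Finset.card_le_card (Finset.filter_subset_filter _ (Finset.subset_univ _))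
    have hT := Finset.card_filter_add_card_filter_not (s := univ.filter (fun v => y v = -1))
      (fun v => v ∈ H.neighborFinset p)
    have hT2 : (univ.filter (fun v => y v = -1)).filter (fun v => v ∈ H.neighborFinset p)
        = (H.neighborFinset p).filter (fun v => y v = -1) := by
      ext v; simp [and_comm]
    rw [hT2] at hT
    have hex : ∀ l l' : ℤ, 0 ≤ l → l + l' = 2 * (h : ℤ) + 1 →
        0 < ((H.neighborFinset p).filter (fun v => y v = l)).card →
        0 < (univ.filter (fun v => y v = l')).card := by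
      intro l l' hl hll hc
      obtain ⟨v, hv⟩ := Finset.card_pos.mp hc
      rw [Finset.mem_filter] at hv
      obtain ⟨v', _, hs⟩ := keyex v hv.1 (by omega)
      exact Finset.card_pos.mpr ⟨v', by simp; omega⟩
    have hbig : ∀ m : ℤ, m = 2 * (h : ℤ) + 2 → (univ.filter (fun v => y v = m)).card = 1 := by
      intro m hm
      rw [Finset.card_eq_one]
      refine ⟨p, ?_⟩
      ext v
      simp only [Finset.mem_filter, Finset.mem_univ, true_and, Finset.mem_singleton]
      constructor
      · intro hv
        exact D.big_unique (by omega) hp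
      · rintro rfl
        rw [hm]; exact hyp
    have hbig2 : ∀ m : ℤ, m = 2 * (h : ℤ) + 2 →
        ((H.neighborFinset p).filter (fun v => y v = m)).card = 0 := by
      intro m hm
      rw [Finset.card_eq_zero, Finset.filter_eq_empty_iff]
      intro v hv hcon
      have := hle v (hne hv)
      omega
    have hrng : ∀ v, y v ∈ Finset.Icc (-2 : ℤ) (2 * h + 2) := by
      intro v
      rw [Finset.mem_Icc]
      refine ⟨D.lo v, ?_⟩
      by_cases hvp : v = p
      · rw [hvp, hyp]
      · have := hle v hvp; omega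
    have e0 := card_cls (y := y) univ _ (fun v _ => hrng v)
    have e1 := sum_cls (y := y) univ (fun a => a) _ (fun v _ => hrng v)
    have e2 := sum_cls (y := y) univ (fun a => a * (a + 1)) _ (fun v _ => hrng v)
    have e3 := card_cls (y := y) (H.neighborFinset p) _ (fun v _ => hrng v)
    have e4 := sum_cls (y := y) (H.neighborFinset p) (fun a => a) _ (fun v _ => hrng v)
    have hcard : ((univ : Finset V).card : ℤ) = 20 := by
      rw [Finset.card_univ, D.card]; rfl
    rw [D.s1] at e1
    rw [D.s2] at e2
    rw [hcard] at e0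
    rw [hpd] at e3
    rw [hpn] at e4
    have hh' : h = 1 ∨ h = 2 := by omega
    have n_2 := hNp1 (-2)
    have n0 := hNp1 0
    have n1 := hNp1 1
    have n2 := hNp1 2
    have n3 := hNp1 3
    have k1 := keycard 1 (by norm_num)
    have k2 := keycard 2 (by norm_num)
    have k3 := keycard 3 (by norm_num)
    clear key keyex hle hne hadj hrng hv0 hv02 hT2 hp'
    rcases hh' with rfl | rfl
    · rw [sumIcc1] at e0 e1 e2 e3 e4
      norm_num at e0 e1 e2 e3 e4
      have k0 := keycard 0 (by norm_num)
      have x0 := hex 0 3 (by norm_num) (by norm_num)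
      have x1 := hex 1 2 (by norm_num) (by norm_num)
      have x2 := hex 2 1 (by norm_num) (by norm_num)
      have b1 := hbig 4 (by norm_num)
      have b2 := hbig2 4 (by norm_num)
      clear keycard hex hbig hbig2 hNp1 hpn hpd hcard hp h0 hh
      generalize ((univ.filter (fun v => y v = -1)).filter
            (fun v => v ∉ H.neighborFinset p)).card = tq at *
      generalize ((H.neighborFinset p).filter (fun v => y v = -2)).card = Lp at *
      generalize ((H.neighborFinset p).filter (fun v => y v = -1)).card = tp at *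
      generalize ((H.neighborFinset p).filter (fun v => y v = 0)).card = z at *
      generalize ((H.neighborFinset p).filter (fun v => y v = 1)).card = s1 at *
      generalize ((H.neighborFinset p).filter (fun v => y v = 2)).card = s2 at *
      generalize ((H.neighborFinset p).filter (fun v => y v = 3)).card = s3 at *
      generalize ((H.neighborFinset p).filter (fun v => y v = 4)).card = s4 at *
      generalize (univ.filter (fun v => y v = -2)).card = L at *
      generalize (univ.filter (fun v => y v = -1)).card = t at *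
      generalize (univ.filter (fun v => y v = 0)).card = m0 at *
      generalize (univ.filter (fun v => y v = 1)).card = m1 at *
      generalize (univ.filter (fun v => y v = 2)).card = m2 at *
      generalize (univ.filter (fun v => y v = 3)).card = m3 at *
      generalize (univ.filter (fun v => y v = 4)).card = m4 at *
      subst b1 b2
      rw [hyp] at e3 e4
      have E1 : m1 + 3 * m2 + 6 * m3 + L = 7 := by clear * - e2; omega
      have E3 : m1 + 2 * m2 + 3 * m3 + 2 = t + 2 * L := by clear * - e1; omega
      have E0 : m0 + m1 + m2 + m3 + t + L = 19 := by clear * - e0; omega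
      have P0 : Lp + tp + z + s1 + s2 + s3 = 7 := by clear * - e3; omega
      have P1 : s1 + 2 * s2 + 3 * s3 + 2 = 2 * Lp + tp := by clear * - e4; omega
      exact aux1 L t m0 m1 m2 m3 Lp tp z s1 s2 s3 tq E1 E3 E0 P0 P1 n_2 n1 n2 n3 hT
        (by clear * - k0; omega) (by clear * - k1; omega) (by clear * - k2; omega)
        (by clear * - k3; omega) x0 x1 x2
    · rw [sumIcc2] at e0 e1 e2 e3 e4
      norm_num at e0 e1 e2 e3 e4
      have k4 := keycard 4 (by norm_num)
      have n4 := hNp1 4
      have x0 := hex 0 5 (by norm_num) (by norm_num)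
      have x1 := hex 1 4 (by norm_num) (by norm_num)
      have x2 := hex 2 3 (by norm_num) (by norm_num)
      have x3 := hex 3 2 (by norm_num) (by norm_num)
      have x5 := hex 5 0 (by norm_num) (by norm_num)
      have b1 := hbig 6 (by norm_num)
      have b2 := hbig2 6 (by norm_num)
      have n5 := hNp1 5
      clear keycard hex hbig hbig2 hNp1 hpn hpd hcard hp h0 hh
      generalize ((univ.filter (fun v => y v = -1)).filter
            (fun v => v ∉ H.neighborFinset p)).card = tq at *
      generalize ((H.neighborFinset p).filter (fun v => y v = -2)).card = Lp at *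
      generalize ((H.neighborFinset p).filter (fun v => y v = -1)).card = tp at *
      generalize ((H.neighborFinset p).filter (fun v => y v = 0)).card = z at *
      generalize ((H.neighborFinset p).filter (fun v => y v = 1)).card = s1 at *
      generalize ((H.neighborFinset p).filter (fun v => y v = 2)).card = s2 at *
      generalize ((H.neighborFinset p).filter (fun v => y v = 3)).card = s3 at *
      generalize ((H.neighborFinset p).filter (fun v => y v = 4)).card = s4 at *
      generalize ((H.neighborFinset p).filter (fun v => y v = 5)).card = s5 at *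
      generalize ((H.neighborFinset p).filter (fun v => y v = 6)).card = s6 at *
      generalize (univ.filter (fun v => y v = -2)).card = L at *
      generalize (univ.filter (fun v => y v = -1)).card = t at *
      generalize (univ.filter (fun v => y v = 0)).card = m0 at *
      generalize (univ.filter (fun v => y v = 1)).card = m1 at *
      generalize (univ.filter (fun v => y v = 2)).card = m2 at *
      generalize (univ.filter (fun v => y v = 3)).card = m3 at *
      generalize (univ.filter (fun v => y v = 4)).card = m4 at *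
      generalize (univ.filter (fun v => y v = 5)).card = m5 at *
      generalize (univ.filter (fun v => y v = 6)).card = m6 at *
      subst b1 b2
      rw [hyp] at e3 e4
      have M5 : m5 = 0 := by clear * - e2; omega
      subst M5
      have S5 : s5 = 0 := by clear * - n5; omega
      subst S5
      have Z0 : z = 0 := by clear * - x0; omega
      subst Z0
      have E1 : m1 + 3 * m2 + 6 * m3 + 10 * m4 + L = 13 := by clear * - e2; omega
      have E3 : m1 + 2 * m2 + 3 * m3 + 4 * m4 + 2 = t + 2 * L := by clear * - e1; omega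
      have P0 : Lp + tp + s1 + s2 + s3 + s4 = 9 := by clear * - e3; omega
      have P1 : s1 + 2 * s2 + 3 * s3 + 4 * s4 + 2 = 2 * Lp + tp := by clear * - e4; omega
      exact aux2 L t m1 m2 m3 m4 Lp tp s1 s2 s3 s4 tq E1 E3 P0 P1 n_2 n1 n2 n3 n4 hT
        (by clear * - k3; omega) (by clear * - k4; omega) x1 x2 x3
  · -- all neighbours are negative
    have hneg : ∀ v ∈ H.neighborFinset p, y v + 1 ≤ 0 := by
      intro v hv
      by_contra hcon
      obtain ⟨v', hv', hs⟩ := keyex v hv (by omega)
      have hvp := hne hv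
      have hv'p : p ≠ v' := by
        intro hcon'
        rw [← hcon'] at hs; omega
      have h3 := D.three_le hvp.symm hv'p hv'.symm
      have h4 : y v' = 2 * h + 1 - y v := by omega
      rw [hyp, h4] at h3
      have h5 : (3 : ℤ) ≤ h := by exact_mod_cast hh
      nlinarith [mul_self_nonneg (2 * y v - 2 * (h : ℤ) - 1)]
    have h1 : ∑ v ∈ H.neighborFinset p, (y v + 1) ≤ 0 := Finset.sum_nonpos hneg
    rw [Finset.sum_add_distrib, hpn] at h1
    simp only [Finset.sum_const, nsmul_eq_mul, mul_one] at h1
    rw [hpd] at h1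
    omega

end Dat

end Pool.Agent.R415.PK
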