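import Mathlib

open Finset

namespace Pool.Agent.R415.PK

def tri (l : ℕ) : ℕ := l * (l + 1) / 2

/-- exhaustive search over all vectors `n 1, …, n l` with prescribed weighted sums -/
def srch (P : List ℕ → Bool) : ℕ → ℕ → ℕ → List ℕ → Bool
  | 0, R1, R2, acc => (R1 != 0) || P (R2 :: acc)
  | l + 1, R1, R2, acc =>
      if (l + 1) * R2 < 2 * R1 then true
      else (List.range (min (R1 / tri (l + 1)) (R2 / (l + 2)) + 1)).all
        fun x => srch P l (R1 - x * tri (l + 1)) (R2 - x * (l + 2)) (x :: acc)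

theorem two_tri (l : ℕ) : 2 * tri l = l * (l + 1) := by
  unfold tri
  exact Nat.mul_div_cancel' (even_iff_two_dvd.mp (Nat.even_mul_succ_self l))

theorem tri_pos (l : ℕ) : 0 < tri (l + 1) := by
  have := two_tri (l + 1)
  have h2 : 0 < (l + 1) * (l + 1 + 1) := by positivity
  omega

theorem srch_sound (P : List ℕ → Bool) (n : ℕ → ℕ) :
    ∀ (l R1 R2 : ℕ) (acc : List ℕ), ∑ i ∈ Finset.range (l + 1), tri i * n i = R1 →
      ∑ i ∈ Finset.range (l + 1), (i + 1) * n i = R2 → srch P l R1 R2 acc = true →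
      P ((List.range (l + 1)).map n ++ acc) = true := by
  intro l
  induction l with
  | zero =>
    intro R1 R2 acc h1 h2 h3
    simp [tri] at h1
    simp at h2
    subst h1 h2
    simpa [srch] using h3
  | succ l ih =>
    intro R1 R2 acc h1 h2 h3
    rw [Finset.sum_range_succ] at h1 h2
    have hb : ∀ i ∈ Finset.range (l + 1), 2 * (tri i * n i) ≤ (l + 1) * ((i + 1) * n i) := by
      intro i hi
      have hi' : i ≤ l + 1 := by have := Finset.mem_range.mp hi; omega
      calc 2 * (tri i * n i) = (2 * tri i) * n i := by ring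
        _ = i * ((i + 1) * n i) := by rw [two_tri]; ring
        _ ≤ (l + 1) * ((i + 1) * n i) := Nat.mul_le_mul_right _ hi'
    have hb' := Finset.sum_le_sum hb
    rw [← Finset.mul_sum, ← Finset.mul_sum] at hb'
    have hb2 : 2 * (tri (l + 1) * n (l + 1)) = (l + 1) * ((l + 1 + 1) * n (l + 1)) := by
      calc 2 * (tri (l + 1) * n (l + 1)) = (2 * tri (l + 1)) * n (l + 1) := by ring
        _ = (l + 1) * ((l + 1 + 1) * n (l + 1)) := by rw [two_tri]; ring
    have hprune : ¬ (l + 1) * R2 < 2 * R1 := by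
      rw [← h1, ← h2, Nat.mul_add, Nat.mul_add]
      omega
    rw [srch, if_neg hprune, List.all_eq_true] at h3
    have hx : n (l + 1) ∈ List.range (min (R1 / tri (l + 1)) (R2 / (l + 2)) + 1) := by
      rw [List.mem_range, Nat.lt_succ_iff, le_min_iff]
      constructor
      · rw [Nat.le_div_iff_mul_le (tri_pos l)]
        calc n (l + 1) * tri (l + 1) = tri (l + 1) * n (l + 1) := by ring
          _ ≤ R1 := by omega
      · rw [Nat.le_div_iff_mul_le (by omega)]
        calc n (l + 1) * (l + 2) = (l + 1 + 1) * n (l + 1) := by ring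
          _ ≤ R2 := by omega
    have h4 := h3 _ hx
    have c1 : n (l + 1) * tri (l + 1) = tri (l + 1) * n (l + 1) := by ring
    have c2 : n (l + 1) * (l + 2) = (l + 1 + 1) * n (l + 1) := by ring
    have h5 := ih _ _ _ (by omega) (by omega) h4
    rw [List.range_succ, List.map_append, List.append_assoc]
    simpa using h5

/-- `S = ∑ l * n l` -/
def sS (g : ℕ → ℕ) : ℕ := ((List.range 16).map (fun l => l * g l)).sum

def ub (h : ℕ) (g : ℕ → ℕ) : ℕ :=
  ((List.range (h + 1)).map
    (fun i => min (g i * (i + 1)) (g (2 * h + 1 - i) * (2 * h + 2 - i)))).sum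

def uni (h : ℕ) (g : ℕ → ℕ) (i : ℕ) : Bool :=
  decide (g (2 * h + 1 - i) = 1) &&
    (List.range (h + 1)).all (fun i' => decide (i' = i) || decide (g i' = 0) ||
      decide (g (2 * h + 1 - i') = 0))

def badA (h : ℕ) (g : ℕ → ℕ) (i : ℕ) : Bool :=
  (List.range 16).any (fun l => decide (1 ≤ l) && decide (l ≠ i) && decide (l ≠ 2 * h + 1 - i) &&
    decide (0 < g l) && decide (i ≤ l))

def badB (h : ℕ) (g : ℕ → ℕ) (i : ℕ) : Bool :=
  decide (1 ≤ i) && decide ((sS g - 2 * h) % i ≠ g i % i)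

def badB2 (h : ℕ) (g : ℕ → ℕ) (i : ℕ) : Bool :=
  decide (1 ≤ i) && decide (g i = 1) && decide (sS g - 2 * h ≠ 1)

def badC (h : ℕ) (g : ℕ → ℕ) (i : ℕ) : Bool :=
  (List.range 16).any (fun l => decide (1 ≤ l) && decide (l ≠ i) && decide (l ≠ 2 * h + 1 - i) &&
    decide (g l = 1) && decide (l + 1 ≠ i) &&
    (List.range 16).all (fun l' => decide (l' = 0) || decide (l' = i) ||
      decide (l' = 2 * h + 1 - i) || decide (l' = l) || decide (g l' = 0)))

def v1 (h : ℕ) (g : ℕ → ℕ) : Bool :=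
  decide (h = 1) && decide (g 0 = 7) && decide (g 1 = 2) && decide (g 2 = 1) && decide (g 3 = 2)

def v2 (h : ℕ) (g : ℕ → ℕ) : Bool :=
  decide (h = 3) && decide (g 0 = 7) && decide (g 1 = 2) && decide (g 6 = 1) && decide (g 7 = 1)

def PB (h : ℕ) (g : ℕ → ℕ) : Bool :=
  (List.range 16).any (fun l => decide (2 * h + 2 ≤ l) && decide (0 < g l)) ||
  decide (ub h g < sS g - 2 * h) ||
  (List.range (h + 1)).any (fun i => uni h g i &&
    (badA h g i || badB h g i || badB2 h g i || badC h g i)) ||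
  v1 h g || v2 h g

theorem check : ∀ h ∈ List.range 14,
    srch (fun L => PB (h + 1) (fun l => L.getD l 0)) 15 (17 * (h + 1)) (20 + 2 * (h + 1)) []
      = true := by
  decide +kernel

theorem PB_true (h : ℕ) (h1 : 1 ≤ h) (h14 : h ≤ 14) (n : ℕ → ℕ) (hz : ∀ l, 16 ≤ l → n l = 0)
    (E1 : ∑ i ∈ Finset.range 16, tri i * n i = 17 * h)
    (E2 : ∑ i ∈ Finset.range 16, (i + 1) * n i = 20 + 2 * h) : PB h n = true := by
  obtain ⟨k, rfl⟩ : ∃ k, h = k + 1 := ⟨h - 1, by omega⟩
  have h3 := check k (List.mem_range.mpr (by omega))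
  have h4 := srch_sound _ n 15 _ _ [] E1 E2 h3
  rw [List.append_nil] at h4
  have h5 : (fun l => ((List.range (15 + 1)).map n).getD l 0) = n := by
    funext l
    rw [List.getD_eq_getElem?_getD]
    by_cases hl : l < 16
    · simp [hl]
    · rw [hz l (by omega)]
      simp [hl]
  rw [h5] at h4
  exact h4

end Pool.Agent.R415.PK
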