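import Pool.Agent.R415.PK.Uni

open Finset

namespace Pool.Agent.R415.PK

variable {V : Type*} [Fintype V] [DecidableEq V] {H : SimpleGraph V} [DecidableRel H.Adj]
  {y : V → ℤ} {h : ℕ}

/-- adjacency as a number -/
def ee (H : SimpleGraph V) [DecidableRel H.Adj] (a b : V) : ℤ := if H.Adj a b then 1 else 0

theorem ee_symm (a b : V) : ee H a b = ee H b a := by
  unfold ee
  simp only [H.adj_comm]

theorem ee_self (a : V) : ee H a a = 0 := by
  unfold ee
  simp

theorem ee_rng (a b : V) : 0 ≤ ee H a b ∧ ee H a b ≤ 1 := by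
  unfold ee
  split_ifs <;> omega

namespace Dat

variable (D : Dat H y h)
include D

theorem aa_eq (x : V) : (aa H y x : ℤ) = y x - 2 * h
    + ∑ u ∈ univ.filter (fun u => 1 ≤ y u), ee H x u * y u := by
  have e1 := D.nb x
  rw [D.sum_split x] at e1
  have e2 : ∑ u ∈ univ.filter (fun u => 1 ≤ y u), ee H x u * y u
      = ∑ u ∈ (univ.filter (fun u => 1 ≤ y u)).filter (fun u => H.Adj x u), y u := by
    rw [Finset.sum_filter (fun u => H.Adj x u)]
    refine Finset.sum_congr rfl fun u _ => ?_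
    unfold ee
    split_ifs <;> simp
  have e3 : ∑ u ∈ (univ.filter (fun u => 1 ≤ y u)).filter (fun u => H.Adj x u), y u
      = ∑ u ∈ (H.neighborFinset x).filter (fun u => ¬ y u = -1), y u := by
    refine Finset.sum_subset ?_ ?_
    · intro u hu
      simp only [Finset.mem_filter, Finset.mem_univ, true_and, SimpleGraph.mem_neighborFinset]
        at hu ⊢
      exact ⟨hu.2, by omega⟩
    · intro u hu hnu
      simp only [Finset.mem_filter, Finset.mem_univ, true_and, SimpleGraph.mem_neighborFinset]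
        at hu hnu
      have h1 := D.lo1 u
      by_contra h2
      exact hnu ⟨by omega, hu.1⟩
  rw [e2, e3]
  omega

theorem nn_zero {l : ℕ} (hl : ∀ v, y v ≠ (l : ℤ)) : nn y l = 0 := by
  rw [nn, Finset.card_eq_zero, Finset.filter_eq_empty_iff]
  intro v _
  exact hl v

theorem nn_big {l : ℕ} (hl : 2 * h + 2 ≤ l) : nn y l = 0 := by
  refine D.nn_zero fun v hv => ?_
  have := D.no_big v
  omega

theorem caseV1 (hh : h = 1) (h0 : nn y 0 = 7) (h1 : nn y 1 = 2) (h2 : nn y 2 = 1)
    (h3 : nn y 3 = 2) : False := by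
  subst hh
  have hT := D.eqs.2.2
  simp only [Finset.sum_range_succ, Finset.sum_range_zero] at hT
  rw [D.nn_big (l := 4) (by norm_num), D.nn_big (l := 5) (by norm_num),
    D.nn_big (l := 6) (by norm_num), D.nn_big (l := 7) (by norm_num),
    D.nn_big (l := 8) (by norm_num), D.nn_big (l := 9) (by norm_num),
    D.nn_big (l := 10) (by norm_num), D.nn_big (l := 11) (by norm_num),
    D.nn_big (l := 12) (by norm_num), D.nn_big (l := 13) (by norm_num),
    D.nn_big (l := 14) (by norm_num), D.nn_big (l := 15) (by norm_num), h1, h2, h3] at hT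
  have hT' : (TT y).card = 8 := by omega
  have hTe := D.T_eq
  simp only [Finset.sum_range_succ, Finset.sum_range_zero, zero_add] at hTe
  have ds0 := D.dc_symm ((0 : ℕ) : ℤ)
  have ds1 := D.dc_symm ((1 : ℕ) : ℤ)
  have le0 := D.sum_aa_le 0
  rw [h0] at le0
  norm_num at ds0 ds1 le0 hTe
  rw [nn] at h1 h2 h3
  norm_num at h1 h2 h3
  obtain ⟨v1, v2, hv12, hV⟩ := Finset.card_eq_two.mp h1
  obtain ⟨u0, hU⟩ := Finset.card_eq_one.mp h2
  obtain ⟨p1, p2, hp12, hP⟩ := Finset.card_eq_two.mp h3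
  have mV : ∀ v, y v = 1 ↔ v = v1 ∨ v = v2 := by
    intro v
    have : v ∈ univ.filter (fun v => y v = 1) ↔ v ∈ ({v1, v2} : Finset V) := by rw [hV]
    simpa using this
  have mU : ∀ v, y v = 2 ↔ v = u0 := by
    intro v
    have : v ∈ univ.filter (fun v => y v = 2) ↔ v ∈ ({u0} : Finset V) := by rw [hU]
    simpa using this
  have mP : ∀ v, y v = 3 ↔ v = p1 ∨ v = p2 := by
    intro v
    have : v ∈ univ.filter (fun v => y v = 3) ↔ v ∈ ({p1, p2} : Finset V) := by rw [hP]
    simpa using this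
  have yv1 : y v1 = 1 := (mV v1).mpr (Or.inl rfl)
  have yv2 : y v2 = 1 := (mV v2).mpr (Or.inr rfl)
  have yu0 : y u0 = 2 := (mU u0).mpr rfl
  have yp1 : y p1 = 3 := (mP p1).mpr (Or.inl rfl)
  have yp2 : y p2 = 3 := (mP p2).mpr (Or.inr rfl)
  have hset : univ.filter (fun u => 1 ≤ y u) = {p1, p2, u0, v1, v2} := by
    ext v
    simp only [Finset.mem_filter, Finset.mem_univ, true_and, Finset.mem_insert,
      Finset.mem_singleton]
    have b1 := D.no_big v
    constructor
    · intro b2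
      have b3 : y v = 1 ∨ y v = 2 ∨ y v = 3 := by push_cast at b1; omega
      rcases b3 with b3 | b3 | b3
      · have := (mV v).mp b3; tauto
      · have := (mU v).mp b3; tauto
      · have := (mP v).mp b3; tauto
    · rintro (rfl | rfl | rfl | rfl | rfl) <;> omega
  have hsum : ∀ f : V → ℤ, ∑ u ∈ univ.filter (fun u => 1 ≤ y u), f u
      = f p1 + f p2 + f u0 + f v1 + f v2 := by
    intro f
    have n1 : p1 ≠ u0 := by rintro rfl; omega
    have n2 : p1 ≠ v1 := by rintro rfl; omega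
    have n3 : p1 ≠ v2 := by rintro rfl; omega
    have n4 : p2 ≠ u0 := by rintro rfl; omega
    have n5 : p2 ≠ v1 := by rintro rfl; omega
    have n6 : p2 ≠ v2 := by rintro rfl; omega
    have n7 : u0 ≠ v1 := by rintro rfl; omega
    have n8 : u0 ≠ v2 := by rintro rfl; omega
    rw [hset, Finset.sum_insert (by simp [hp12, n1, n2, n3]),
      Finset.sum_insert (by simp [n4, n5, n6]), Finset.sum_insert (by simp [n7, n8]),
      Finset.sum_pair hv12]
    ring
  have a1 := D.aa_eq p1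
  have a2 := D.aa_eq p2
  have a3 := D.aa_eq u0
  have a4 := D.aa_eq v1
  have a5 := D.aa_eq v2
  rw [hsum] at a1 a2 a3 a4 a5
  rw [ee_symm p2 p1, ee_self p2] at a2
  rw [ee_self p1] at a1
  rw [ee_symm u0 p1, ee_symm u0 p2, ee_self] at a3
  rw [ee_symm v1 p1, ee_symm v1 p2, ee_symm v1 u0, ee_self] at a4
  rw [ee_symm v2 p1, ee_symm v2 p2, ee_symm v2 u0, ee_symm v2 v1, ee_self] at a5
  rw [yv1, yv2, yu0, yp1, yp2] at a1 a2 a3 a4 a5
  have c4 := D.aa_le v1
  have c5 := D.aa_le v2
  have c3 := D.aa_le u0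
  rw [yv1] at c4
  rw [yv2] at c5
  rw [yu0] at c3
  rw [hV, hU, Finset.sum_pair hv12, Finset.sum_singleton] at ds1
  rw [hP, Finset.sum_pair hp12] at ds0
  rw [hV, Finset.sum_pair hv12] at hTe
  have r1 := ee_rng (H := H) p1 p2
  have r2 := ee_rng (H := H) p1 u0
  have r3 := ee_rng (H := H) p2 u0
  have r4 := ee_rng (H := H) p1 v1
  have r5 := ee_rng (H := H) p1 v2
  have r6 := ee_rng (H := H) p2 v1
  have r7 := ee_rng (H := H) p2 v2
  have r8 := ee_rng (H := H) u0 v1
  have r9 := ee_rng (H := H) u0 v2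
  have r10 := ee_rng (H := H) v1 v2
  push_cast at a1 a2 a3 a4 a5
  clear hsum hset mV mU mP hV hU hP hv12 hp12 yv1 yv2 yu0 yp1 yp2 h0 h1 h2 h3 hT D
  omega

theorem caseV2 (hh : h = 3) (h0 : nn y 0 = 7) (h1 : nn y 1 = 2) (h6 : nn y 6 = 1)
    (h7 : nn y 7 = 1) : False := by
  subst hh
  have hE := D.eqs.1
  have hT := D.eqs.2.2
  simp only [Finset.sum_range_succ, Finset.sum_range_zero, tri] at hE hT
  rw [D.nn_big (l := 8) (by norm_num), D.nn_big (l := 9) (by norm_num),
    D.nn_big (l := 10) (by norm_num), D.nn_big (l := 11) (by norm_num),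
    D.nn_big (l := 12) (by norm_num), D.nn_big (l := 13) (by norm_num),
    D.nn_big (l := 14) (by norm_num), D.nn_big (l := 15) (by norm_num), h1, h6, h7] at hE hT
  norm_num at hE
  have m2 : nn y 2 = 0 := Nat.le_zero.mp (by clear hT; linarith)
  have m3 : nn y 3 = 0 := Nat.le_zero.mp (by clear hT; linarith)
  have m4 : nn y 4 = 0 := Nat.le_zero.mp (by clear hT; linarith)
  have m5 : nn y 5 = 0 := Nat.le_zero.mp (by clear hT; linarith)
  rw [m2, m3, m4, m5] at hT
  have hT' : (TT y).card = 9 := by clear hE; omega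
  clear hE hT
  have hTe := D.T_eq
  simp only [Finset.sum_range_succ, Finset.sum_range_zero, zero_add] at hTe
  have ds0 := D.dc_symm ((0 : ℕ) : ℤ)
  have ds1 := D.dc_symm ((1 : ℕ) : ℤ)
  have le0 := D.sum_aa_le 0
  have le2 := D.sum_aa_le 2
  have le3 := D.sum_aa_le 3
  rw [h0] at le0
  rw [m2] at le2
  rw [m3] at le3
  norm_num at ds0 ds1 le0 hTe
  have z2 : ∑ v ∈ univ.filter (fun v => y v = 2), aa H y v = 0 := by
    have : ∑ v ∈ univ.filter (fun v => y v = 2), aa H y v ≤ 0 := by simpa using le2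
    omega
  have z3 : ∑ v ∈ univ.filter (fun v => y v = 3), aa H y v = 0 := by
    have : ∑ v ∈ univ.filter (fun v => y v = 3), aa H y v ≤ 0 := by simpa using le3
    omega
  rw [z2, z3] at hTe
  rw [nn] at h1 h6 h7
  norm_num at h1 h6 h7
  obtain ⟨v1, v2, hv12, hV⟩ := Finset.card_eq_two.mp h1
  obtain ⟨u0, hU⟩ := Finset.card_eq_one.mp h6
  obtain ⟨p0, hP⟩ := Finset.card_eq_one.mp h7
  have mV : ∀ v, y v = 1 ↔ v = v1 ∨ v = v2 := by
    intro v
    have : v ∈ univ.filter (fun v => y v = 1) ↔ v ∈ ({v1, v2} : Finset V) := by rw [hV]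
    simpa using this
  have mU : ∀ v, y v = 6 ↔ v = u0 := by
    intro v
    have : v ∈ univ.filter (fun v => y v = 6) ↔ v ∈ ({u0} : Finset V) := by rw [hU]
    simpa using this
  have mP : ∀ v, y v = 7 ↔ v = p0 := by
    intro v
    have : v ∈ univ.filter (fun v => y v = 7) ↔ v ∈ ({p0} : Finset V) := by rw [hP]
    simpa using this
  have yv1 : y v1 = 1 := (mV v1).mpr (Or.inl rfl)
  have yv2 : y v2 = 1 := (mV v2).mpr (Or.inr rfl)
  have yu0 : y u0 = 6 := (mU u0).mpr rfl
  have yp0 : y p0 = 7 := (mP p0).mpr rfl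
  have hset : univ.filter (fun u => 1 ≤ y u) = {p0, u0, v1, v2} := by
    ext v
    simp only [Finset.mem_filter, Finset.mem_univ, true_and, Finset.mem_insert,
      Finset.mem_singleton]
    have b1 := D.no_big v
    constructor
    · intro b2
      have c2 : y v ≠ 2 := fun hc => D.nn_ne (l := 2) (v := v) (by exact_mod_cast hc) m2
      have c3 : y v ≠ 3 := fun hc => D.nn_ne (l := 3) (v := v) (by exact_mod_cast hc) m3
      have c4 : y v ≠ 4 := fun hc => D.nn_ne (l := 4) (v := v) (by exact_mod_cast hc) m4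
      have c5 : y v ≠ 5 := fun hc => D.nn_ne (l := 5) (v := v) (by exact_mod_cast hc) m5
      have b3 : y v = 1 ∨ y v = 6 ∨ y v = 7 := by push_cast at b1; omega
      rcases b3 with b3 | b3 | b3
      · have := (mV v).mp b3; tauto
      · have := (mU v).mp b3; tauto
      · have := (mP v).mp b3; tauto
    · rintro (rfl | rfl | rfl | rfl) <;> omega
  have hsum : ∀ f : V → ℤ, ∑ u ∈ univ.filter (fun u => 1 ≤ y u), f u
      = f p0 + f u0 + f v1 + f v2 := by
    intro f
    have n1 : p0 ≠ u0 := by rintro rfl; omega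
    have n2 : p0 ≠ v1 := by rintro rfl; omega
    have n3 : p0 ≠ v2 := by rintro rfl; omega
    have n7 : u0 ≠ v1 := by rintro rfl; omega
    have n8 : u0 ≠ v2 := by rintro rfl; omega
    rw [hset, Finset.sum_insert (by simp [n1, n2, n3]), Finset.sum_insert (by simp [n7, n8]),
      Finset.sum_pair hv12]
    ring
  have a1 := D.aa_eq p0
  have a3 := D.aa_eq u0
  have a4 := D.aa_eq v1
  have a5 := D.aa_eq v2
  rw [hsum] at a1 a3 a4 a5
  rw [ee_self p0] at a1
  rw [ee_symm u0 p0, ee_self] at a3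
  rw [ee_symm v1 p0, ee_symm v1 u0, ee_self] at a4
  rw [ee_symm v2 p0, ee_symm v2 u0, ee_symm v2 v1, ee_self] at a5
  rw [yv1, yv2, yu0, yp0] at a1 a3 a4 a5
  have c4 := D.aa_le v1
  have c5 := D.aa_le v2
  rw [yv1] at c4
  rw [yv2] at c5
  rw [hV, hU, Finset.sum_pair hv12, Finset.sum_singleton] at ds1
  rw [hP, Finset.sum_singleton] at ds0
  rw [hV, Finset.sum_pair hv12] at hTe
  have r2 := ee_rng (H := H) p0 u0
  have r4 := ee_rng (H := H) p0 v1
  have r5 := ee_rng (H := H) p0 v2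
  have r8 := ee_rng (H := H) u0 v1
  have r9 := ee_rng (H := H) u0 v2
  have r10 := ee_rng (H := H) v1 v2
  push_cast at a1 a3 a4 a5
  clear hsum hset mV mU mP hV hU hP hv12 yv1 yv2 yu0 yp0 h0 h1 h6 h7 D m2 m3 m4 m5 z2 z3 le2 le3
  omega

end Dat

end Pool.Agent.R415.PK
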