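import Pool.Agent.R415.PK.Final

open Finset

namespace Pool.Agent.R415.PK

variable {V : Type*} [Fintype V] [DecidableEq V] {H : SimpleGraph V} [DecidableRel H.Adj]
  {y : V → ℤ} {h : ℕ}

namespace Dat

variable (D : Dat H y h)
include D

theorem caseA {i : ℕ} (hi : i ≤ h) (hu : uni h (nn y) i = true) (hb : badA h (nn y) i = true) :
    False := by
  obtain ⟨p, hp, hT⟩ := D.uni_p hu
  rw [badA, List.any_eq_true] at hb
  obtain ⟨l, hl, hb⟩ := hb
  simp only [Bool.and_eq_true, decide_eq_true_eq] at hb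
  obtain ⟨⟨⟨⟨h1, h2⟩, h3⟩, h4⟩, h5⟩ := hb
  obtain ⟨v, hv⟩ := D.nn_pos h4
  have hvp : v ≠ p := by
    rintro rfl
    have := (hp v).mpr rfl
    omega
  obtain ⟨k1, k2⟩ := D.unp hi hp hT v (by omega) (by omega) hvp
  have k3 : 0 ≤ ∑ u ∈ (H.neighborFinset v).erase p, y u := by
    refine Finset.sum_nonneg fun u hu => ?_
    rcases k1 u hu with k | k
    · exact k.1
    · exact k.1.ge
  omega

theorem caseC {i : ℕ} (hi : i ≤ h) (hu : uni h (nn y) i = true) (hb : badC h (nn y) i = true) :
    False := by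
  obtain ⟨p, hp, hT⟩ := D.uni_p hu
  rw [badC, List.any_eq_true] at hb
  obtain ⟨l, hl, hb⟩ := hb
  simp only [Bool.and_eq_true, decide_eq_true_eq, List.all_eq_true, Bool.or_eq_true] at hb
  obtain ⟨⟨⟨⟨⟨h1, h2⟩, h3⟩, h4⟩, h5⟩, h6⟩ := hb
  rw [nn, Finset.card_eq_one] at h4
  obtain ⟨v, hvs⟩ := h4
  have mv : ∀ x, y x = (l : ℤ) ↔ x = v := by
    intro x
    have : x ∈ univ.filter (fun v => y v = (l : ℤ)) ↔ x ∈ ({v} : Finset V) := by rw [hvs]
    simpa using this
  have hv : y v = l := (mv v).mpr rfl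
  have hvp : v ≠ p := by
    rintro rfl
    have := (hp v).mpr rfl
    omega
  obtain ⟨k1, k2⟩ := D.unp hi hp hT v (by omega) (by omega) hvp
  have k3 : ∑ u ∈ (H.neighborFinset v).erase p, y u = 0 := by
    refine Finset.sum_eq_zero fun u hu => ?_
    obtain ⟨hup, huv⟩ := Finset.mem_erase.mp hu
    rcases k1 u hu with k | k
    · by_contra hne
      have h7 := D.hi u
      have h8 := h6 (y u).toNat (List.mem_range.mpr (by omega))
      have h9 : nn y (y u).toNat ≠ 0 := D.nn_ne (v := u) (by omega)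
      have h10 : (y u).toNat ≠ 2 * h + 1 - i := by
        intro hc
        exact hup ((hp u).mp (by omega))
      have h11 : (y u).toNat ≠ l := by
        intro hc
        have : u = v := (mv u).mp (by omega)
        subst this
        exact H.irrefl ((H.mem_neighborFinset u u).mp huv)
      have h12 : (y u).toNat ≠ 0 := by omega
      have h13 : (y u).toNat ≠ i := by
        intro hc
        exact k.2 (by omega)
      tauto
    · exact k.1
  omega

theorem T_small {i : ℕ} (hi : i ≤ h) (hi1 : 1 ≤ i) (hu : uni h (nn y) i = true) :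
    ∃ G : ℕ, (TT y).card = nn y i + i * G := by
  obtain ⟨p, hp, hT⟩ := D.uni_p hu
  refine ⟨∑ q ∈ univ.filter (fun v => y v = ((i : ℕ) : ℤ)),
    ((H.neighborFinset q).filter (fun u => y u = i)).card, ?_⟩
  rw [D.Tcount hi hp hT]
  have h1 : ∀ q ∈ univ.filter (fun v => y v = ((i : ℕ) : ℤ)), aa H y q
      = 1 + i * ((H.neighborFinset q).filter (fun u => y u = i)).card := by
    intro q hq
    have := D.smallq hi hp hT hi1 q (Finset.mem_filter.mp hq).2
    exact_mod_cast this
  rw [Finset.sum_congr rfl h1, Finset.sum_add_distrib, ← Finset.mul_sum]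
  simp [nn]

theorem caseB {i : ℕ} (hi : i ≤ h) (hu : uni h (nn y) i = true) (hb : badB h (nn y) i = true) :
    False := by
  rw [badB] at hb
  simp only [Bool.and_eq_true, decide_eq_true_eq] at hb
  obtain ⟨h1, h2⟩ := hb
  obtain ⟨G, hG⟩ := D.T_small hi h1 hu
  apply h2
  rw [D.sS_eq, Nat.add_sub_cancel_left, hG, Nat.add_mul_mod_self_left]

theorem caseB2 {i : ℕ} (hi : i ≤ h) (hu : uni h (nn y) i = true)
    (hb : badB2 h (nn y) i = true) : False := by
  rw [badB2] at hb
  simp only [Bool.and_eq_true, decide_eq_true_eq] at hb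
  obtain ⟨⟨h1, h2⟩, h3⟩ := hb
  rw [D.sS_eq, Nat.add_sub_cancel_left] at h3
  obtain ⟨p, hp, hT⟩ := D.uni_p hu
  rw [nn, Finset.card_eq_one] at h2
  obtain ⟨q, hqs⟩ := h2
  have mq : ∀ x, y x = (i : ℤ) ↔ x = q := by
    intro x
    have : x ∈ univ.filter (fun v => y v = (i : ℤ)) ↔ x ∈ ({q} : Finset V) := by rw [hqs]
    simpa using this
  have h4 := D.Tcount hi hp hT
  rw [hqs, Finset.sum_singleton] at h4
  have h5 := D.smallq hi hp hT h1 q ((mq q).mpr rfl)
  have h6 : ((H.neighborFinset q).filter (fun u => y u = i)).card = 0 := by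
    rw [Finset.card_eq_zero, Finset.filter_eq_empty_iff]
    intro u hu hc
    have := (mq u).mp hc
    subst this
    exact H.irrefl ((H.mem_neighborFinset u u).mp hu)
  rw [h6] at h5
  simp only [Nat.cast_zero, mul_zero, add_zero] at h5
  have h7 : aa H y q = 1 := by exact_mod_cast h5
  omega

theorem contra : False := by
  have hz : ∀ l, 16 ≤ l → nn y l = 0 := by
    intro l hl
    refine D.nn_zero fun v hv => ?_
    have := D.hi v
    omega
  have hPB := PB_true h D.hpos D.h_le (nn y) hz D.eqs.1 D.eqs.2.1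
  rw [PB] at hPB
  simp only [Bool.or_eq_true] at hPB
  rcases hPB with (((hp | hp) | hp) | hp) | hp
  · rw [List.any_eq_true] at hp
    obtain ⟨l, hl, hp⟩ := hp
    simp only [Bool.and_eq_true, decide_eq_true_eq] at hp
    obtain ⟨v, hv⟩ := D.nn_pos hp.2
    have := D.no_big v
    omega
  · rw [decide_eq_true_eq, D.sS_eq, Nat.add_sub_cancel_left] at hp
    have := D.RT
    omega
  · rw [List.any_eq_true] at hp
    obtain ⟨i, hi, hp⟩ := hp
    have hi' : i ≤ h := by have := List.mem_range.mp hi; omega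
    simp only [Bool.and_eq_true, Bool.or_eq_true] at hp
    obtain ⟨hu, ((hb | hb) | hb) | hb⟩ := hp
    · exact D.caseA hi' hu hb
    · exact D.caseB hi' hu hb
    · exact D.caseB2 hi' hu hb
    · exact D.caseC hi' hu hb
  · rw [v1] at hp
    simp only [Bool.and_eq_true, decide_eq_true_eq] at hp
    obtain ⟨⟨⟨⟨h0, h1⟩, h2⟩, h3⟩, h4⟩ := hp
    exact D.caseV1 h0 h1 h2 h3 h4
  · rw [v2] at hp
    simp only [Bool.and_eq_true, decide_eq_true_eq] at hp
    obtain ⟨⟨⟨⟨h0, h1⟩, h2⟩, h3⟩, h4⟩ := hp
    exact D.caseV2 h0 h1 h2 h3 h4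

end Dat

/-- No connected non-regular graph on 20 vertices satisfies the 16-harmonic equation. -/
theorem no20 (G : SimpleGraph (Fin 20)) [DecidableRel G.Adj]
    (hpos : ∀ v, 0 < G.degree v)
    (hh : ∀ v, ∑ u ∈ G.neighborFinset v, G.degree u = 16 * G.degree v)
    (hne : ∃ v, G.degree v ≠ 16) : False := by
  set y : Fin 20 → ℤ := fun v => 16 - (G.degree v : ℤ) with hy
  have hnbG : ∀ w, ∑ u ∈ G.neighborFinset w, y u = 0 := by
    intro w
    have h1 : ((∑ u ∈ G.neighborFinset w, G.degree u : ℕ) : ℤ) = 16 * G.degree w := by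
      exact_mod_cast hh w
    push_cast at h1
    simp only [hy, Finset.sum_sub_distrib, Finset.sum_const, nsmul_eq_mul, h1,
      SimpleGraph.card_neighborFinset_eq_degree]
    ring
  -- sum of squares
  have hsq : ∑ v, (G.degree v : ℤ) * y v = 0 := by
    have h1 : ∑ w, ∑ u ∈ G.neighborFinset w, y u = 0 := Finset.sum_eq_zero fun w _ => hnbG w
    have h2 : ∀ w, ∑ u ∈ G.neighborFinset w, y u = ∑ u, if G.Adj w u then y u else 0 := by
      intro w
      rw [← Finset.sum_filter]
      congr 1
      ext u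
      simp
    rw [Finset.sum_congr rfl (fun w _ => h2 w), Finset.sum_comm] at h1
    rw [← h1]
    refine Finset.sum_congr rfl fun v _ => ?_
    rw [← Finset.sum_filter, Finset.sum_const, nsmul_eq_mul]
    congr 2
    rw [← G.card_neighborFinset_eq_degree]
    congr 1
    ext u
    simp [G.adj_comm]
  set τ : ℤ := ∑ v, y v with hτ
  have hsq2 : ∑ v, y v * y v = 16 * τ := by
    have h1 : ∑ v, (G.degree v : ℤ) * y v = 16 * τ - ∑ v, y v * y v := by
      rw [hτ, Finset.mul_sum, ← Finset.sum_sub_distrib]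
      refine Finset.sum_congr rfl fun v _ => ?_
      simp only [hy]; ring
    omega
  have hτpos : 0 < τ := by
    obtain ⟨v, hv⟩ := hne
    have h1 : y v * y v ≤ ∑ v, y v * y v :=
      Finset.single_le_sum (f := fun v => y v * y v) (fun u _ => mul_self_nonneg (y u))
        (Finset.mem_univ v)
    have h2 : y v ≠ 0 := by simp only [hy]; omega
    have h3 : 0 < y v * y v := mul_self_pos.mpr h2
    omega
  have heven : Even τ := by
    have h1 := G.sum_degrees_eq_twice_card_edges
    have h2 : τ = 320 - ((∑ v, G.degree v : ℕ) : ℤ) := by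
      rw [hτ]
      push_cast
      simp only [hy, Finset.sum_sub_distrib, Finset.sum_const, Finset.card_univ,
        Fintype.card_fin, nsmul_eq_mul]
      norm_num
    rw [h2, h1]
    push_cast
    exact ⟨160 - #G.edgeFinset, by ring⟩
  obtain ⟨k, hk⟩ := heven
  have hk' : τ = 2 * ((k.toNat : ℕ) : ℤ) := by omega
  have hN : ∀ w, ∑ u ∈ Gᶜ.neighborFinset w, y u = τ - y w := by
    intro w
    have e1 := Finset.sum_filter_add_sum_filter_not univ (fun v => v ∈ G.neighborFinset w) y
    have e2 : univ.filter (fun v => v ∈ G.neighborFinset w) = G.neighborFinset w := by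
      ext v; simp
    rw [e2, hnbG w] at e1
    have hpp : w ∈ univ.filter (fun v => v ∉ G.neighborFinset w) := by simp
    rw [← Finset.add_sum_erase _ _ hpp] at e1
    have e3 : (univ.filter (fun v => v ∉ G.neighborFinset w)).erase w = Gᶜ.neighborFinset w := by
      ext v
      simp only [Finset.mem_erase, Finset.mem_filter, Finset.mem_univ, true_and,
        SimpleGraph.mem_neighborFinset, SimpleGraph.compl_adj]
      constructor
      · rintro ⟨a, b⟩; exact ⟨fun h => a h.symm, b⟩
      · rintro ⟨a, b⟩; exact ⟨fun h => a h.symm, b⟩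
    rw [e3] at e1
    omega
  have hdeg : ∀ w, ((Gᶜ.neighborFinset w).card : ℤ) = y w + 3 := by
    intro w
    rw [SimpleGraph.card_neighborFinset_eq_degree, SimpleGraph.degree_compl, Fintype.card_fin]
    have := G.degree_lt_card_verts w
    rw [Fintype.card_fin] at this
    simp only [hy]
    omega
  refine Dat.contra (H := Gᶜ) (y := y) (h := k.toNat) ⟨by simp, hdeg, fun w => ?_, ?_, ?_, ?_, ?_, ?_⟩
  · rw [hN w, hk']
  · rw [← hk']
  · have : ∑ v, y v * (y v + 1) = ∑ v, y v * y v + ∑ v, y v := by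
      rw [← Finset.sum_add_distrib]
      exact Finset.sum_congr rfl fun v _ => by ring
    rw [this, hsq2, ← hτ]
    omega
  · intro v
    by_contra hcon
    have h1 := hdeg v
    have h2 : (Gᶜ.neighborFinset v).card = 0 := by omega
    have h3 := hN v
    rw [Finset.card_eq_zero.mp h2, Finset.sum_empty] at h3
    omega
  · intro v
    have := hpos v
    simp only [hy]
    omega
  · omega

end Pool.Agent.R415.PK
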