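import Pool.Agent.R415.PK.Big
import Pool.Agent.R415.PK.Enum

open Finset

namespace Pool.Agent.R415.PK

theorem list_sum_range (f : ℕ → ℕ) (n : ℕ) :
    ((List.range n).map f).sum = ∑ i ∈ Finset.range n, f i := by
  induction n with
  | zero => simp
  | succ n ih => rw [List.range_succ, List.map_append, List.sum_append, ih,
      Finset.sum_range_succ]; simp

variable {V : Type*} [Fintype V] [DecidableEq V] {H : SimpleGraph V} [DecidableRel H.Adj]
  {y : V → ℤ} {h : ℕ}

/-- the number of neighbours with `y = -1` -/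
def aa (H : SimpleGraph V) [DecidableRel H.Adj] (y : V → ℤ) (v : V) : ℕ :=
  ((H.neighborFinset v).filter (fun u => y u = -1)).card

/-- size of a class -/
def nn (y : V → ℤ) (l : ℕ) : ℕ := (univ.filter (fun v => y v = (l : ℤ))).card

def TT (y : V → ℤ) : Finset V := univ.filter (fun v => y v = -1)

namespace Dat

variable (D : Dat H y h)
include D

theorem lo1 (v : V) : -1 ≤ y v := by
  by_contra hcon
  have h2 : y v = -2 := by have := D.lo v; omega
  obtain ⟨q, _, hq⟩ := D.leaf h2
  have := D.no_big q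
  omega

theorem pairT {w : V} (hw : y w = -1) : ∃ u v, u ≠ v ∧ H.neighborFinset w = {u, v} ∧
    y u + y v = 2 * h + 1 ∧ 0 ≤ y u ∧ y u ≤ h := by
  obtain ⟨u, v, huv, hN, hs⟩ := D.two hw
  have h1 := D.no_big u
  have h2 := D.no_big v
  rcases le_or_gt (y u) h with h3 | h3
  · exact ⟨u, v, huv, hN, hs, by omega, h3⟩
  · exact ⟨v, u, huv.symm, by rw [hN, Finset.pair_comm], by omega, by omega, by omega⟩

theorem sum_split (v : V) :
    ∑ u ∈ H.neighborFinset v, y u = -(aa H y v : ℤ)
      + ∑ u ∈ (H.neighborFinset v).filter (fun u => ¬ y u = -1), y u := by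
  rw [← Finset.sum_filter_add_sum_filter_not (H.neighborFinset v) (fun u => y u = -1)]
  congr 1
  rw [Finset.sum_congr rfl (g := fun _ => (-1 : ℤ))]
  · simp [aa]
  · intro u hu
    exact (Finset.mem_filter.mp hu).2

theorem aa_le (v : V) : (aa H y v : ℤ) ≤ y v + 1 := by
  by_contra hcon
  have h1 := Finset.card_filter_add_card_filter_not (s := H.neighborFinset v)
    (fun u => y u = -1)
  have h2 := D.deg v
  have h3 := D.nb v
  rw [D.sum_split v] at h3
  have h4 : ((H.neighborFinset v).filter (fun u => y u = -1)).card = aa H y v := rfl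
  rw [h4] at h1
  have h5 : ((H.neighborFinset v).filter (fun u => ¬ y u = -1)).card = 0 ∨
      ((H.neighborFinset v).filter (fun u => ¬ y u = -1)).card = 1 := by omega
  rcases h5 with h5 | h5
  · have h6 := Finset.card_eq_zero.mp h5
    rw [h6, Finset.sum_empty] at h3
    omega
  · obtain ⟨b, hb⟩ := Finset.card_eq_one.mp h5
    rw [hb, Finset.sum_singleton] at h3
    have := D.no_big b
    omega

theorem sumV (f : ℤ → ℤ) :
    ∑ v, f (y v) = ((TT y).card : ℤ) * f (-1) + ∑ i ∈ Finset.range 16, (nn y i : ℤ) * f i := by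
  rw [sum_cls (y := y) univ f (insert (-1) ((Finset.range 16).image (fun i : ℕ => (i : ℤ))))]
  · rw [Finset.sum_insert, Finset.sum_image]
    · rfl
    · intro a _ b _ hab
      have hab' : ((a : ℕ) : ℤ) = b := hab
      exact_mod_cast hab'
    · simp only [Finset.mem_image, not_exists, not_and]
      intro a _ ha
      omega
  · intro v _
    rw [Finset.mem_insert, Finset.mem_image]
    have h1 := D.lo1 v
    have h2 := D.hi v
    by_cases h3 : y v = -1
    · left; exact h3
    · right
      exact ⟨(y v).toNat, Finset.mem_range.mpr (by omega), by omega⟩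

theorem eqs : (∑ i ∈ Finset.range 16, tri i * nn y i = 17 * h) ∧
    (∑ i ∈ Finset.range 16, (i + 1) * nn y i = 20 + 2 * h) ∧
    (∑ i ∈ Finset.range 16, i * nn y i = 2 * h + (TT y).card) := by
  have e0 := D.sumV (fun _ => 1)
  have e1 := D.sumV (fun a => a)
  have e2 := D.sumV (fun a => a * (a + 1))
  rw [D.s1] at e1
  rw [D.s2] at e2
  have hc : ∑ _v : V, (1 : ℤ) = 20 := by
    rw [Finset.sum_const, Finset.card_univ, D.card]; rfl
  rw [hc] at e0
  have a1 : ((∑ i ∈ Finset.range 16, i * nn y i : ℕ) : ℤ) = 2 * h + (TT y).card := by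
    push_cast
    rw [Finset.sum_congr rfl (fun (i : ℕ) _ => mul_comm (i : ℤ) (nn y i : ℤ))]
    omega
  have a0 : ((∑ i ∈ Finset.range 16, nn y i : ℕ) : ℤ) = 20 - (TT y).card := by
    push_cast
    simp only [mul_one] at e0
    omega
  refine ⟨?_, ?_, by exact_mod_cast a1⟩
  · have a2 : ((∑ i ∈ Finset.range 16, 2 * (tri i * nn y i) : ℕ) : ℤ) = 34 * h := by
      push_cast
      rw [e2]
      simp only [neg_add_cancel, mul_zero, zero_add]
      refine Finset.sum_congr rfl fun i _ => ?_
      have := two_tri i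
      have h2 : (2 : ℤ) * (tri i : ℤ) = i * (i + 1) := by exact_mod_cast this
      calc (2 : ℤ) * (tri i * nn y i) = (2 * tri i) * nn y i := by ring
        _ = nn y i * (i * (i + 1)) := by rw [h2]; ring
    rw [← Finset.mul_sum] at a2
    have a3 : 2 * ∑ i ∈ Finset.range 16, tri i * nn y i = 34 * h := by exact_mod_cast a2
    omega
  · have a4 : ∑ i ∈ Finset.range 16, (i + 1) * nn y i
        = ∑ i ∈ Finset.range 16, i * nn y i + ∑ i ∈ Finset.range 16, nn y i := by
      rw [← Finset.sum_add_distrib]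
      exact Finset.sum_congr rfl fun i _ => by ring
    rw [a4]
    omega

theorem sS_eq : sS (nn y) = 2 * h + (TT y).card := by
  rw [sS, list_sum_range]
  exact D.eqs.2.2

theorem T_pos : 0 < (TT y).card := by
  obtain ⟨e1, _, e3⟩ := D.eqs
  have h1 : ∑ i ∈ Finset.range 16, 2 * (tri i * nn y i)
      ≤ ∑ i ∈ Finset.range 16, 16 * (i * nn y i) := by
    refine Finset.sum_le_sum fun i hi => ?_
    have hi' : i + 1 ≤ 16 := by have := Finset.mem_range.mp hi; omega
    calc 2 * (tri i * nn y i) = (2 * tri i) * nn y i := by ring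
      _ = (i + 1) * (i * nn y i) := by rw [two_tri]; ring
      _ ≤ 16 * (i * nn y i) := Nat.mul_le_mul_right _ hi'
  rw [← Finset.mul_sum, ← Finset.mul_sum, e1, e3] at h1
  have := D.hpos
  omega

theorem h_le : h ≤ 14 := by
  obtain ⟨w, hw⟩ := Finset.card_pos.mp D.T_pos
  have hw' : y w = -1 := (Finset.mem_filter.mp hw).2
  obtain ⟨u, v, _, _, hs, _, _⟩ := D.pairT hw'
  have h1 := D.hi u
  have h2 := D.hi v
  omega

/-- the double count of edges between `T` and a class -/
theorem dc (l : ℤ) : ∑ v ∈ univ.filter (fun v => y v = l), aa H y v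
    = ((TT y).filter (fun w => ∃ v ∈ H.neighborFinset w, y v = l)).card := by
  have h1 := Finset.sum_card_bipartiteAbove_eq_sum_card_bipartiteBelow
    (s := univ.filter (fun v => y v = l)) (t := TT y) (fun v w => H.Adj v w)
  have h2 : ∑ v ∈ univ.filter (fun v => y v = l), aa H y v
      = ∑ a ∈ univ.filter (fun v => y v = l), ((TT y).bipartiteAbove (fun v w => H.Adj v w) a).card := by
    refine Finset.sum_congr rfl fun v _ => ?_
    rw [aa]
    congr 1
    ext u
    simp [Finset.bipartiteAbove, TT, and_comm]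
  rw [h2, h1, Finset.card_filter]
  refine Finset.sum_congr rfl fun w hw => ?_
  have hw' : y w = -1 := (Finset.mem_filter.mp hw).2
  obtain ⟨u, v, huv, hN, hs, _, _⟩ := D.pairT hw'
  have h3 : (univ.filter (fun v => y v = l)).bipartiteBelow (fun v w => H.Adj v w) w
      = (H.neighborFinset w).filter (fun v => y v = l) := by
    ext x
    simp [Finset.bipartiteBelow, and_comm, H.adj_comm]
  rw [h3, hN]
  split_ifs with hex
  · rw [Finset.card_eq_one]
    obtain ⟨x, hx, hxl⟩ := hex
    refine ⟨x, ?_⟩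
    ext z
    simp only [Finset.mem_filter, Finset.mem_insert, Finset.mem_singleton] at hx ⊢
    constructor
    · rintro ⟨hz, hzl⟩
      rcases hx with rfl | rfl <;> rcases hz with rfl | rfl
      · rfl
      · omega
      · omega
      · rfl
    · rintro rfl
      exact ⟨hx, hxl⟩
  · rw [Finset.card_eq_zero, Finset.filter_eq_empty_iff]
    intro x hx hxl
    exact hex ⟨x, hx, hxl⟩

theorem dc_symm (l : ℤ) : ∑ v ∈ univ.filter (fun v => y v = l), aa H y v
    = ∑ v ∈ univ.filter (fun v => y v = 2 * h + 1 - l), aa H y v := by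
  rw [D.dc, D.dc]
  congr 1
  refine Finset.filter_congr fun w hw => ?_
  have hw' : y w = -1 := (Finset.mem_filter.mp hw).2
  obtain ⟨u, v, huv, hN, hs, _, _⟩ := D.pairT hw'
  rw [hN]
  simp only [Finset.mem_insert, Finset.mem_singleton, exists_eq_or_imp, exists_eq_left]
  constructor
  · rintro (h1 | h1)
    · right; omega
    · left; omega
  · rintro (h1 | h1)
    · right; omega
    · left; omega

/-- total number of vertices of degree two -/
theorem T_eq : (TT y).card = ∑ i ∈ Finset.range (h + 1),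
    ∑ v ∈ univ.filter (fun v => y v = ((i : ℕ) : ℤ)), aa H y v := by
  have h1 : TT y = (Finset.range (h + 1)).biUnion (fun i =>
      (TT y).filter (fun w => ∃ v ∈ H.neighborFinset w, y v = ((i : ℕ) : ℤ))) := by
    ext w
    rw [Finset.mem_biUnion]
    constructor
    · intro hw
      have hw' : y w = -1 := (Finset.mem_filter.mp hw).2
      obtain ⟨u, v, huv, hN, hs, h0, hh⟩ := D.pairT hw'
      refine ⟨(y u).toNat, Finset.mem_range.mpr (by omega), Finset.mem_filter.mpr ⟨hw, u, ?_, by omega⟩⟩
      rw [hN]; simp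
    · rintro ⟨i, _, hw⟩
      exact (Finset.mem_filter.mp hw).1
  conv_lhs => rw [h1]
  rw [Finset.card_biUnion]
  · exact Finset.sum_congr rfl fun i _ => (D.dc _).symm
  · intro i hi j hj hij
    rw [Function.onFun, Finset.disjoint_left]
    intro w hw1 hw2
    obtain ⟨hw, u1, hu1, e1⟩ := Finset.mem_filter.mp hw1
    obtain ⟨_, u2, hu2, e2⟩ := Finset.mem_filter.mp hw2
    have hw' : y w = -1 := (Finset.mem_filter.mp hw).2
    obtain ⟨u, v, huv, hN, hs, h0, hh⟩ := D.pairT hw'
    have hi' := Finset.mem_range.mp (Finset.mem_coe.mp hi)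
    have hj' := Finset.mem_range.mp (Finset.mem_coe.mp hj)
    rw [hN, Finset.mem_insert, Finset.mem_singleton] at hu1 hu2
    apply hij
    rcases hu1 with rfl | rfl <;> rcases hu2 with rfl | rfl <;> omega

theorem sum_aa_le (l : ℕ) :
    ∑ v ∈ univ.filter (fun v => y v = ((l : ℕ) : ℤ)), aa H y v ≤ nn y l * (l + 1) := by
  rw [nn, ← smul_eq_mul]
  refine Finset.sum_le_card_nsmul _ _ _ fun v hv => ?_
  have h1 := (Finset.mem_filter.mp hv).2
  have := D.aa_le v
  omega

theorem RT : (TT y).card ≤ ub h (nn y) := by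
  rw [D.T_eq, ub, list_sum_range]
  refine Finset.sum_le_sum fun i hi => le_min (D.sum_aa_le i) ?_
  have hi' := Finset.mem_range.mp hi
  rw [D.dc_symm]
  have h1 := D.sum_aa_le (2 * h + 1 - i)
  have h2 : (((2 * h + 1 - i : ℕ) : ℕ) : ℤ) = 2 * h + 1 - i := by omega
  rw [h2] at h1
  have h3 : 2 * h + 2 - i = 2 * h + 1 - i + 1 := by omega
  rw [h3]
  exact h1

end Dat

end Pool.Agent.R415.PK
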