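import Pool.Agent.R415.PK.Small

open Finset

namespace Pool.Agent.R415.PK

variable {V : Type*} [Fintype V] [DecidableEq V] {H : SimpleGraph V} [DecidableRel H.Adj]
  {y : V → ℤ} {h : ℕ}

namespace Dat

variable (D : Dat H y h)
include D

theorem nn_pos {l : ℕ} (hl : 0 < nn y l) : ∃ v, y v = (l : ℤ) := by
  obtain ⟨v, hv⟩ := Finset.card_pos.mp hl
  exact ⟨v, (Finset.mem_filter.mp hv).2⟩

theorem nn_ne {v : V} {l : ℕ} (hv : y v = (l : ℤ)) : nn y l ≠ 0 := by
  have : 0 < nn y l := Finset.card_pos.mpr ⟨v, by simp [hv]⟩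
  omega

theorem uni_p {i : ℕ} (hu : uni h (nn y) i = true) :
    ∃ p, (∀ v, y v = ((2 * h + 1 - i : ℕ) : ℤ) ↔ v = p) ∧
      ∀ w, y w = -1 → ∃ u, u ≠ p ∧ y u = i ∧ H.neighborFinset w = {u, p} := by
  rw [uni, Bool.and_eq_true, decide_eq_true_eq, List.all_eq_true] at hu
  obtain ⟨h1, h2⟩ := hu
  rw [nn, Finset.card_eq_one] at h1
  obtain ⟨p, hp⟩ := h1
  have hp' : ∀ v, y v = ((2 * h + 1 - i : ℕ) : ℤ) ↔ v = p := by
    intro v
    have : v ∈ univ.filter (fun v => y v = ((2 * h + 1 - i : ℕ) : ℤ)) ↔ v ∈ ({p} : Finset V) := by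
      rw [hp]
    simpa using this
  refine ⟨p, hp', fun w hw => ?_⟩
  obtain ⟨u, v, huv, hN, hs, h0, hh⟩ := D.pairT hw
  have h3 := h2 (y u).toNat (List.mem_range.mpr (by omega))
  simp only [Bool.or_eq_true, decide_eq_true_eq] at h3
  have h4 : nn y (y u).toNat ≠ 0 := D.nn_ne (v := u) (by omega)
  have h5 : nn y (2 * h + 1 - (y u).toNat) ≠ 0 := D.nn_ne (v := v) (by omega)
  have h6 : (y u).toNat = i := by tauto
  have h7 : v = p := (hp' v).mp (by omega)
  subst h7
  exact ⟨u, huv, by omega, hN⟩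

section
variable {p : V} {i : ℕ} (hi : i ≤ h) (hp : ∀ v, y v = ((2 * h + 1 - i : ℕ) : ℤ) ↔ v = p)
  (hT : ∀ w, y w = -1 → ∃ u, u ≠ p ∧ y u = i ∧ H.neighborFinset w = {u, p})
include hi hp hT

theorem adjA (v : V) (hv : 0 < y v) (hvp : v ≠ p) : H.Adj v p := by
  have e1 := Finset.sum_filter_add_sum_filter_not univ (fun v => v ∈ H.neighborFinset p) y
  have e2 : univ.filter (fun v => v ∈ H.neighborFinset p) = H.neighborFinset p := by
    ext v; simp
  rw [e2, D.nb p, D.s1] at e1
  have hpp : p ∈ univ.filter (fun v => v ∉ H.neighborFinset p) := by simp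
  rw [← Finset.add_sum_erase _ _ hpp] at e1
  have e3 : ∑ v ∈ (univ.filter (fun v => v ∉ H.neighborFinset p)).erase p, y v = 0 := by omega
  have hnn : ∀ v ∈ (univ.filter (fun v => v ∉ H.neighborFinset p)).erase p, 0 ≤ y v := by
    intro v hv
    by_contra hcon
    have h1 := D.lo1 v
    obtain ⟨u, _, _, hN⟩ := hT v (by omega)
    have h2 : p ∈ H.neighborFinset v := by rw [hN]; simp
    have h3 : v ∈ H.neighborFinset p := by
      rw [SimpleGraph.mem_neighborFinset] at h2 ⊢
      exact h2.symm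
    exact (Finset.mem_filter.mp (Finset.mem_of_mem_erase hv)).2 h3
  have h4 := (Finset.sum_eq_zero_iff_of_nonneg hnn).mp e3
  by_contra hcon
  have h5 := h4 v (Finset.mem_erase.mpr ⟨hvp, Finset.mem_filter.mpr ⟨Finset.mem_univ _, by
    rw [SimpleGraph.mem_neighborFinset]; exact fun h => hcon h.symm⟩⟩)
  omega

/-- the situation around an unpaired positive vertex -/
theorem unp (v : V) (hv : 1 ≤ y v) (hvi : y v ≠ i) (hvp : v ≠ p) :
    (∀ u ∈ (H.neighborFinset v).erase p, 0 ≤ y u ∧ y u ≠ i ∨ (y u = 0 ∧ i = 0)) ∧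
      ∑ u ∈ (H.neighborFinset v).erase p, y u = (i : ℤ) - 1 - y v := by
  have hadj := D.adjA hi hp hT v (by omega) hvp
  have hyp : y p = ((2 * h + 1 - i : ℕ) : ℤ) := (hp p).mpr rfl
  have e1 := D.nb_erase hadj
  have e2 : ∑ u ∈ (H.neighborFinset v).erase p, y u = (i : ℤ) - 1 - y v := by omega
  have hnn : ∀ u ∈ (H.neighborFinset v).erase p, 0 ≤ y u := by
    intro u hu
    by_contra hcon
    have h1 := D.lo1 u
    obtain ⟨u', _, hu', hN⟩ := hT u (by omega)
    have h2 : v ∈ H.neighborFinset u := by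
      rw [SimpleGraph.mem_neighborFinset]
      exact ((H.mem_neighborFinset v u).mp (Finset.mem_of_mem_erase hu)).symm
    rw [hN, Finset.mem_insert, Finset.mem_singleton] at h2
    rcases h2 with rfl | rfl
    · exact hvi hu'
    · exact hvp rfl
  refine ⟨fun u hu => ?_, e2⟩
  by_cases h0 : i = 0
  · subst h0
    by_cases h1 : y u = 0
    · right; exact ⟨h1, rfl⟩
    · left; exact ⟨hnn u hu, by simpa using h1⟩
  · left
    refine ⟨hnn u hu, fun hui => ?_⟩
    have h1 := Finset.single_le_sum hnn hu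
    omega

/-- number of `T`-neighbours of a vertex of the small class -/
theorem smallq (hi1 : 1 ≤ i) (q : V) (hq : y q = i) :
    (aa H y q : ℤ) = 1 + i * (((H.neighborFinset q).filter (fun u => y u = i)).card : ℤ) := by
  have hyp : y p = ((2 * h + 1 - i : ℕ) : ℤ) := (hp p).mpr rfl
  have hqp : q ≠ p := by
    rintro rfl
    omega
  have hadj := D.adjA hi hp hT q (by omega) hqp
  have e1 := D.nb_erase hadj
  have e2 : ∑ u ∈ (H.neighborFinset q).erase p, y u
      = ∑ u ∈ (H.neighborFinset q).erase p, ((if y u = -1 then (-1 : ℤ) else 0)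
          + (if y u = i then (i : ℤ) else 0)) := by
    refine Finset.sum_congr rfl fun u hu => ?_
    obtain ⟨hup, huq⟩ := Finset.mem_erase.mp hu
    have huq' : H.Adj q u := (H.mem_neighborFinset q u).mp huq
    have h1 := D.lo1 u
    by_cases c1 : y u = -1
    · rw [if_pos c1, if_neg (by omega), c1]; rfl
    · rw [if_neg c1]
      by_cases c2 : y u = i
      · rw [if_pos c2, c2, zero_add]
      · rw [if_neg c2]
        by_contra c3
        obtain ⟨h3, _⟩ := D.unp hi hp hT u (by omega) c2 hup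
        have h4 := h3 q (Finset.mem_erase.mpr ⟨hqp, (H.mem_neighborFinset u q).mpr huq'.symm⟩)
        rcases h4 with h4 | h4
        · exact h4.2 hq
        · omega
  rw [e2, Finset.sum_add_distrib, ← Finset.sum_filter, ← Finset.sum_filter] at e1
  simp only [Finset.sum_const, nsmul_eq_mul] at e1
  have e3 : ((H.neighborFinset q).erase p).filter (fun u => y u = -1)
      = (H.neighborFinset q).filter (fun u => y u = -1) := by
    ext u
    simp only [Finset.mem_filter, Finset.mem_erase]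
    constructor
    · rintro ⟨⟨_, a⟩, b⟩; exact ⟨a, b⟩
    · rintro ⟨a, b⟩
      refine ⟨⟨?_, a⟩, b⟩
      rintro rfl
      omega
  have e4 : ((H.neighborFinset q).erase p).filter (fun u => y u = i)
      = (H.neighborFinset q).filter (fun u => y u = i) := by
    ext u
    simp only [Finset.mem_filter, Finset.mem_erase]
    constructor
    · rintro ⟨⟨_, a⟩, b⟩; exact ⟨a, b⟩
    · rintro ⟨a, b⟩
      refine ⟨⟨?_, a⟩, b⟩
      rintro rfl
      omega
  rw [e3, e4] at e1
  have e5 : (((H.neighborFinset q).filter (fun u => y u = -1)).card : ℤ) = aa H y q := rfl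
  rw [e5] at e1
  have e6 : (i : ℤ) * (((H.neighborFinset q).filter (fun u => y u = i)).card : ℤ)
      = (((H.neighborFinset q).filter (fun u => y u = i)).card : ℤ) * i := mul_comm _ _
  rw [e6]
  omega

theorem Tcount : ((TT y).card : ℕ) = ∑ q ∈ univ.filter (fun v => y v = ((i : ℕ) : ℤ)), aa H y q := by
  rw [D.dc]
  congr 1
  symm
  rw [Finset.filter_eq_self]
  intro w hw
  obtain ⟨u, _, hu, hN⟩ := hT w (Finset.mem_filter.mp hw).2
  exact ⟨u, by rw [hN]; simp, hu⟩

end

end Dat

end Pool.Agent.R415.PK
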